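import Pool.Agent.Run7.h729.Lay.Meas

/-! An event whose probability does not change when the parameters of the blocks are changed is
independent of the numbers of the plus bits of the blocks. -/

namespace Pool.Agent.Run7.h729.Ind

open Pool.Agent.H988R2.Perc Finset MeasureTheory ProbabilityTheory Pool.Agent.Run7.h729.Lay
open scoped unitInterval ENNReal

/-- weight of a bit -/
noncomputable def wb (p : ℝ) (b : Bool) : ℝ := if b = true then p else 1 - p

theorem wb_nonneg (p : unitInterval) (b : Bool) : 0 ≤ wb p b := by
  unfold wb
  split_ifs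
  · exact p.2.1
  · linarith [p.2.2]

theorem ber_single (p : unitInterval) (b : Bool) :
    (Ber(true, false, p) : Measure Bool) {b} = ENNReal.ofReal (wb p b) := by
  rw [← ofReal_measureReal, ber_singleton]
  unfold wb
  rfl

/-- the parameter `0` or `1` of a given bit -/
noncomputable def pt (b : Bool) : unitInterval := if b = true then 1 else 0

theorem ber_pt (b : Bool) (S : Set Bool) :
    (Ber(true, false, pt b) : Measure Bool) S = open Classical in if b ∈ S then 1 else 0 := by
  classical
  have h1 : (Ber(true, false, pt b) : Measure Bool) {b} = 1 := by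
    rw [ber_single]
    cases b <;> simp [wb, pt]
  have h2 : (Ber(true, false, pt b) : Measure Bool) {!b} = 0 := by
    rw [ber_single]
    cases b <;> simp [wb, pt]
  split_ifs with h
  · apply le_antisymm prob_le_one
    rw [← h1]
    exact measure_mono (Set.singleton_subset_iff.mpr h)
  · have : S ⊆ {!b} := by
      intro x hx
      have : x ≠ b := fun h3 => h (h3 ▸ hx)
      revert this
      cases x <;> cases b <;> simp
    exact measure_mono_null this h2

theorem ber_cut (p : unitInterval) (b : Bool) (S : Set Bool) :
    (Ber(true, false, p) : Measure Bool) (S ∩ {b}) =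
      ENNReal.ofReal (wb p b) * (Ber(true, false, pt b) : Measure Bool) S := by
  classical
  rw [ber_pt]
  split_ifs with h
  · rw [mul_one, ← ber_single, Set.inter_eq_self_of_subset_right (Set.singleton_subset_iff.mpr h)]
  · rw [mul_zero]
    have : S ∩ {b} = ∅ := by
      rw [Set.inter_singleton_eq_empty]
      exact h
    rw [this, measure_empty]

open Classical in
/-- overwrite the parameters of the edges of `F` by `0` or `1` -/
noncomputable def ov (θ : Edge → unitInterval) (F : Finset Edge) (τ : Edge → Bool) (e : Edge) :
    unitInterval := if e ∈ F then pt (τ e) else θ e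

/-- the configurations which agree with `τ` on `F` -/
def cyl (F : Finset Edge) (τ : Edge → Bool) : Set Conf := {ω | ∀ e ∈ F, ω e = τ e}

theorem measurableSet_cyl (F : Finset Edge) (τ : Edge → Bool) : MeasurableSet (cyl F τ) := by
  have : cyl F τ = ⋂ e ∈ F, (fun ω : Conf => ω e) ⁻¹' {τ e} := by
    ext ω; simp [cyl]
  rw [this]
  exact Finset.measurableSet_biInter _ fun e _ => measurable_pi_apply e (measurableSet_singleton _)

/-- **conditioning on a cylinder** -/
theorem cyl_inter (θ : Edge → unitInterval) (F : Finset Edge) (τ : Edge → Bool)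
    (h0 : ∀ e ∈ F, 0 < wb (θ e) (τ e)) {A : Set Conf} (hA : MeasurableSet A) :
    (indep θ).real (A ∩ cyl F τ) = (∏ e ∈ F, wb (θ e) (τ e)) * (indep (ov θ F τ)).real A := by
  classical
  set W : ℝ≥0∞ := ∏ e ∈ F, ENNReal.ofReal (wb (θ e) (τ e)) with hW
  have hW0 : W ≠ 0 := by
    rw [hW, Finset.prod_ne_zero_iff]
    intro e he
    exact (ENNReal.ofReal_pos.mpr (h0 e he)).ne'
  have hWt : W ≠ ∞ := by
    rw [hW]
    exact ENNReal.prod_ne_top fun e _ => ENNReal.ofReal_ne_top
  have key : W⁻¹ • (indep θ).restrict (cyl F τ) = indep (ov θ F τ) := by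
    unfold indep
    apply Measure.eq_infinitePi
    intro s t ht
    rw [Measure.smul_apply, Measure.restrict_apply
      (MeasurableSet.pi s.countable_toSet fun i _ => ht i), smul_eq_mul]
    have hset : Set.pi (s : Set Edge) t ∩ cyl F τ = Set.pi ((s ∪ F : Finset Edge) : Set Edge)
        (fun e => (if e ∈ s then t e else Set.univ) ∩ (if e ∈ F then {τ e} else Set.univ)) := by
      ext ω
      simp only [cyl, Set.mem_inter_iff, Set.mem_pi, Set.mem_setOf_eq, Finset.mem_coe,
        Finset.mem_union]
      constructor
      · rintro ⟨h1, h2⟩ e _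
        refine ⟨?_, ?_⟩
        · split_ifs with h
          · exact h1 e h
          · trivial
        · split_ifs with h
          · exact h2 e h
          · trivial
      · intro h
        refine ⟨fun e he => ?_, fun e he => ?_⟩
        · have := (h e (Or.inl he)).1
          rwa [if_pos he] at this
        · have := (h e (Or.inr he)).2
          rwa [if_pos he] at this
    rw [hset, Measure.infinitePi_pi _ (fun _ _ => MeasurableSet.of_discrete)]
    have hterm : ∀ e ∈ s ∪ F, (Ber(true, false, θ e) : Measure Bool)
        ((if e ∈ s then t e else Set.univ) ∩ (if e ∈ F then {τ e} else Set.univ)) =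
        (if e ∈ F then ENNReal.ofReal (wb (θ e) (τ e)) else 1) *
          (if e ∈ s then (Ber(true, false, ov θ F τ e) : Measure Bool) (t e) else 1) := by
      intro e he
      by_cases hF : e ∈ F <;> by_cases hs : e ∈ s
      · rw [if_pos hs, if_pos hF, if_pos hF, if_pos hs, ber_cut]
        congr 2
        simp [ov, hF]
      · rw [if_neg hs, if_pos hF, if_pos hF, if_neg hs, ber_cut, measure_univ]
      · rw [if_pos hs, if_neg hF, if_neg hF, if_pos hs, one_mul, Set.inter_univ]
        congr 2
        simp [ov, hF]
      · rw [Finset.mem_union] at he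
        tauto
    rw [Finset.prod_congr rfl hterm, Finset.prod_mul_distrib]
    have e1 : ∏ e ∈ s ∪ F, (if e ∈ F then ENNReal.ofReal (wb (θ e) (τ e)) else 1) = W := by
      rw [Finset.prod_ite_mem, Finset.inter_eq_right.mpr Finset.subset_union_right]
    have e2 : ∏ e ∈ s ∪ F, (if e ∈ s then (Ber(true, false, ov θ F τ e) : Measure Bool) (t e)
        else 1) = ∏ e ∈ s, (Ber(true, false, ov θ F τ e) : Measure Bool) (t e) := by
      rw [Finset.prod_ite_mem, Finset.inter_eq_right.mpr Finset.subset_union_left]
    rw [e1, e2, ← mul_assoc, ENNReal.inv_mul_cancel hW0 hWt, one_mul]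
  have h1 : (indep θ) (A ∩ cyl F τ) = W * (indep (ov θ F τ)) A := by
    rw [← key, Measure.smul_apply, Measure.restrict_apply hA, smul_eq_mul, ← mul_assoc,
      ENNReal.mul_inv_cancel hW0 hWt, one_mul]
  rw [measureReal_def, h1, ENNReal.toReal_mul, hW, ENNReal.toReal_prod, ← measureReal_def]
  congr 1
  exact Finset.prod_congr rfl fun e _ => ENNReal.toReal_ofReal (wb_nonneg _ _)

end Pool.Agent.Run7.h729.Ind
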