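import Pool.Agent.Run7.h729.Ind.Abs

/-! Independence of the numbers of the plus bits of the blocks. -/

namespace Pool.Agent.Run7.h729.Ind

open Pool.Agent.H988R2.Perc Finset MeasureTheory ProbabilityTheory Pool.Agent.Run7.h729.Lay
open scoped unitInterval ENNReal

/-- Bernstein polynomials are linearly independent -/
theorem bern_zero (b : ℕ) (h : ℕ → ℝ)
    (H : ∀ x : ℝ, 0 < x → x < 1 → ∑ m ∈ range (b+1), x^m * (1-x)^(b-m) * h m = 0) :
    ∀ m ≤ b, h m = 0 := by
  set q : Polynomial ℝ := ∑ m ∈ range (b+1), Polynomial.C (h m) * Polynomial.X^m with hq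
  have hroot : ∀ t : ℝ, 0 < t → q.eval t = 0 := by
    intro t ht
    have h1 : (0:ℝ) < 1 + t := by linarith
    have H1 := H (t / (1+t)) (by positivity) (by rw [div_lt_one h1]; linarith)
    have e : 1 - t / (1+t) = 1 / (1+t) := by field_simp; ring
    rw [e] at H1
    have h2 : q.eval t = (1+t)^b * ∑ m ∈ range (b+1), (t/(1+t))^m * (1/(1+t))^(b-m) * h m := by
      rw [hq, Polynomial.eval_finsetSum, Finset.mul_sum]
      refine Finset.sum_congr rfl fun m hm => ?_
      have hm' : m ≤ b := by rw [Finset.mem_range] at hm; omega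
      rw [Polynomial.eval_mul, Polynomial.eval_C, Polynomial.eval_pow, Polynomial.eval_X]
      obtain ⟨c, rfl⟩ := Nat.exists_eq_add_of_le hm'
      rw [Nat.add_sub_cancel_left, div_pow, div_pow, pow_add, one_pow]
      field_simp
    rw [h2, H1, mul_zero]
  have hq0 : q = 0 := by
    apply Polynomial.eq_zero_of_infinite_isRoot
    refine Set.Infinite.mono ?_ (Set.Ioi_infinite (0:ℝ))
    intro t ht
    exact hroot t ht
  intro m hm
  have hc : q.coeff m = h m := by
    rw [hq, Polynomial.finset_sum_coeff]
    simp only [Polynomial.coeff_C_mul, Polynomial.coeff_X_pow]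
    rw [Finset.sum_eq_single m]
    · simp
    · intro k _ hk
      rw [if_neg (fun h => hk h.symm), mul_zero]
    · intro h
      exact absurd (Finset.mem_range.mpr (by omega)) h
  rw [← hc, hq0, Polynomial.coeff_zero]

/-- the number of the plus bits of a block -/
def plus (B : Finset Edge) (s : Edge → Bool) (ω : Conf) : ℕ := (B.filter fun e => ω e = s e).card

theorem plus_le (B : Finset Edge) (s : Edge → Bool) (ω : Conf) : plus B s ω ≤ B.card :=
  Finset.card_filter_le _ _

open Classical in
/-- the indicator of a set of edges -/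
noncomputable def chi (t : Finset Edge) (e : Edge) : Bool := decide (e ∈ t)

theorem measurable_plus (B : Finset Edge) (s : Edge → Bool) : Measurable (plus B s) := by
  classical
  have : plus B s = fun ω => ∑ e ∈ B, if ω e = s e then 1 else 0 := by
    funext ω
    unfold plus
    rw [Finset.card_filter]
  rw [this]
  refine Finset.measurable_sum B fun e _ => ?_
  have hm : MeasurableSet {ω : Conf | ω e = s e} := by
    have h := measurable_pi_apply (X := fun _ : Edge => Bool) e (measurableSet_singleton (s e))
    exact h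
  exact Measurable.ite hm measurable_const measurable_const

open Classical in
/-- the patterns with `m` plus bits -/
noncomputable def pats (B : Finset Edge) (s : Edge → Bool) (m : ℕ) : Finset (Finset Edge) :=
  B.powerset.filter fun t => plus B s (chi t) = m

theorem plus_congr {B : Finset Edge} {s : Edge → Bool} {ω ω' : Conf} (h : ∀ e ∈ B, ω e = ω' e) :
    plus B s ω = plus B s ω' := by
  unfold plus
  congr 1
  refine Finset.filter_congr fun e he => ?_
  rw [h e he]

theorem decomp (B : Finset Edge) (s : Edge → Bool) (m : ℕ) (A : Set Conf) :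
    A ∩ {ω | plus B s ω = m} = ⋃ t ∈ pats B s m, A ∩ cyl B (chi t) := by
  classical
  ext ω
  simp only [Set.mem_inter_iff, Set.mem_iUnion, exists_prop, pats, Finset.mem_filter,
    Finset.mem_powerset]
  constructor
  · rintro ⟨hA, hm⟩
    have hcy : ω ∈ cyl B (chi (B.filter fun e => ω e = true)) := by
      intro e he
      unfold chi
      cases h : ω e <;> simp [he, h]
    refine ⟨B.filter fun e => ω e = true, ⟨Finset.filter_subset _ _, ?_⟩, hA, hcy⟩
    rw [← plus_congr hcy]
    exact hm
  · rintro ⟨t, ⟨-, hm⟩, hA, hc⟩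
    refine ⟨hA, ?_⟩
    show plus B s ω = m
    rw [plus_congr hc]
    exact hm

theorem wb_prod (θ : Edge → unitInterval) (B : Finset Edge) (s : Edge → Bool) (x : ℝ)
    (hθ : ∀ e ∈ B, (θ e : ℝ) = if s e = true then x else 1 - x) (τ : Edge → Bool) :
    ∏ e ∈ B, wb (θ e) (τ e) = x ^ (plus B s τ) * (1 - x) ^ (B.card - plus B s τ) := by
  classical
  have h1 : ∀ e ∈ B, wb (θ e) (τ e) = if τ e = s e then x else 1 - x := by
    intro e he
    unfold wb
    rw [hθ e he]
    cases h2 : τ e <;> cases h3 : s e <;> simp
  rw [Finset.prod_congr rfl h1, Finset.prod_ite, Finset.prod_const, Finset.prod_const]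
  unfold plus
  congr 2
  have := Finset.card_filter_add_card_filter_not (s := B) (p := fun e => τ e = s e)
  omega

/-- the part of the probability which does not depend on the parameter of the block -/
noncomputable def GG (θ : Edge → unitInterval) (B : Finset Edge) (s : Edge → Bool) (m : ℕ)
    (A : Set Conf) : ℝ := ∑ t ∈ pats B s m, (indep (ov θ B (chi t))).real A

theorem block_eq (θ : Edge → unitInterval) (B : Finset Edge) (s : Edge → Bool) {x : ℝ}
    (h0 : 0 < x) (h1 : x < 1) (hθ : ∀ e ∈ B, (θ e : ℝ) = if s e = true then x else 1 - x)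
    {A : Set Conf} (hA : MeasurableSet A) (m : ℕ) :
    (indep θ).real (A ∩ {ω | plus B s ω = m}) = x ^ m * (1 - x) ^ (B.card - m) * GG θ B s m A := by
  classical
  rw [decomp, measureReal_biUnion_finset]
  · unfold GG
    rw [Finset.mul_sum]
    refine Finset.sum_congr rfl fun t ht => ?_
    have hm : plus B s (chi t) = m := (Finset.mem_filter.mp ht).2
    rw [cyl_inter θ B (chi t) ?_ hA, wb_prod θ B s x hθ, hm]
    intro e he
    unfold wb
    rw [hθ e he]
    split_ifs <;> linarith
  · intro t ht t' ht' hne
    rw [Function.onFun, Set.disjoint_left]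
    rintro ω ⟨_, h1⟩ ⟨_, h2⟩
    apply hne
    have k1 := Finset.mem_powerset.mp (Finset.mem_filter.mp (Finset.mem_coe.mp ht)).1
    have k2 := Finset.mem_powerset.mp (Finset.mem_filter.mp (Finset.mem_coe.mp ht')).1
    ext e
    by_cases he : e ∈ B
    · have := (h1 e he).symm.trans (h2 e he)
      unfold chi at this
      simpa using this
    · exact ⟨fun h => absurd (k1 h) he, fun h => absurd (k2 h) he⟩
  · intro t _
    exact hA.inter (measurableSet_cyl _ _)

theorem GG_congr {θ θ' : Edge → unitInterval} {B : Finset Edge} (s : Edge → Bool) (m : ℕ)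
    (A : Set Conf) (h : ∀ e ∉ B, θ e = θ' e) : GG θ B s m A = GG θ' B s m A := by
  classical
  unfold GG
  refine Finset.sum_congr rfl fun t _ => ?_
  have : ov θ B (chi t) = ov θ' B (chi t) := by
    funext e
    unfold ov
    split_ifs with he
    · rfl
    · exact h e he
  rw [this]

theorem total (θ : Edge → unitInterval) (B : Finset Edge) (s : Edge → Bool) {A : Set Conf}
    (hA : MeasurableSet A) : (indep θ).real A =
      ∑ m ∈ range (B.card + 1), (indep θ).real (A ∩ {ω | plus B s ω = m}) := by
  have h : A = ⋃ m ∈ range (B.card + 1), A ∩ {ω | plus B s ω = m} := by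
    ext ω
    simp only [Set.mem_iUnion, Finset.mem_range, exists_prop, Set.mem_inter_iff]
    constructor
    · intro hω
      exact ⟨plus B s ω, Nat.lt_succ_of_le (plus_le B s ω), hω, rfl⟩
    · rintro ⟨m, _, hω, _⟩
      exact hω
  conv_lhs => rw [h]
  rw [measureReal_biUnion_finset]
  · intro m _ m' _ hne
    rw [Function.onFun, Set.disjoint_left]
    rintro ω ⟨_, h1⟩ ⟨_, h2⟩
    exact hne ((show plus B s ω = m from h1).symm.trans h2)
  · intro m _
    exact hA.inter (measurable_plus B s (measurableSet_singleton m))

/-- a family of parameters indexed by the parameters of the blocks -/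
structure Fam {ι : Type*} (B : ι → Finset Edge) (s : Edge → Bool)
    (θ : (ι → unitInterval) → Edge → unitInterval) : Prop where
  blk : ∀ p i, ∀ e ∈ B i, (θ p e : ℝ) = if s e = true then (p i : ℝ) else 1 - p i
  off : ∀ p p' i, (∀ j, j ≠ i → p j = p' j) → ∀ e ∉ B i, θ p e = θ p' e

/-- parameters in `(0,1)`, equal to `1/2` up to finitely many -/
def Fin2 {ι : Type*} (p : ι → unitInterval) : Prop :=
  (∀ i, 0 < (p i : ℝ) ∧ (p i : ℝ) < 1) ∧ {i | (p i : ℝ) ≠ 1/2}.Finite

theorem Fin2.update {ι : Type*} [DecidableEq ι] {p : ι → unitInterval} (h : Fin2 p) (i : ι)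
    (x : unitInterval) (h0 : 0 < (x:ℝ)) (h1 : (x:ℝ) < 1) : Fin2 (Function.update p i x) := by
  refine ⟨fun j => ?_, ?_⟩
  · by_cases hj : j = i
    · subst hj; rw [Function.update_self]; exact ⟨h0, h1⟩
    · rw [Function.update_of_ne hj]; exact h.1 j
  · refine (h.2.union (Set.finite_singleton i)).subset ?_
    intro j hj
    by_cases hji : j = i
    · exact Or.inr hji
    · left
      simp only [Set.mem_setOf_eq] at hj ⊢
      rwa [Function.update_of_ne hji] at hj

/-- **independence of the counts, finitely many blocks** -/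
theorem indep_finite {ι : Type*} [DecidableEq ι] {B : ι → Finset Edge} {s : Edge → Bool}
    {θ : (ι → unitInterval) → Edge → unitInterval} (hF : Fam B s θ) {A : Set Conf}
    (hA : MeasurableSet A) {c : ℝ} (hc : ∀ p, Fin2 p → (indep (θ p)).real A = c)
    (K : Finset ι) : ∀ p, Fin2 p → ∀ n : ι → ℕ,
      (indep (θ p)).real (A ∩ {ω | ∀ i ∈ K, plus (B i) s ω = n i}) =
        c * (indep (θ p)).real {ω | ∀ i ∈ K, plus (B i) s ω = n i} := by
  induction K using Finset.induction_on with
  | empty =>
    intro p hp n
    have : {ω : Conf | ∀ i ∈ (∅ : Finset ι), plus (B i) s ω = n i} = Set.univ := by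
      ext ω; simp
    rw [this, Set.inter_univ, hc p hp, probReal_univ, mul_one]
  | insert i K hi ih =>
    intro p hp n
    set C' : Set Conf := {ω | ∀ j ∈ K, plus (B j) s ω = n j} with hC'
    have hC'm : MeasurableSet C' := by
      have : C' = ⋂ j ∈ K, (plus (B j) s) ⁻¹' {n j} := by
        ext ω; simp [hC']
      rw [this]
      exact Finset.measurableSet_biInter _ fun j _ =>
        measurable_plus (B j) s (measurableSet_singleton _)
    set C : Set Conf := A ∩ C' with hC
    have hCm : MeasurableSet C := hA.inter hC'm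
    have e1 : A ∩ {ω | ∀ j ∈ insert i K, plus (B j) s ω = n j} =
        C ∩ {ω | plus (B i) s ω = n i} := by
      ext ω
      simp only [hC, hC', Set.mem_inter_iff, Set.mem_setOf_eq, Finset.mem_insert, forall_eq_or_imp]
      tauto
    have e2 : {ω : Conf | ∀ j ∈ insert i K, plus (B j) s ω = n j} =
        C' ∩ {ω | plus (B i) s ω = n i} := by
      ext ω
      simp only [hC', Set.mem_inter_iff, Set.mem_setOf_eq, Finset.mem_insert, forall_eq_or_imp]
      tauto
    rw [e1, e2]
    have key : ∀ m ≤ (B i).card, GG (θ p) (B i) s m C - c * GG (θ p) (B i) s m C' = 0 := by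
      refine bern_zero (B i).card (fun m => GG (θ p) (B i) s m C - c * GG (θ p) (B i) s m C') ?_
      intro x hx0 hx1
      set X : unitInterval := ⟨x, hx0.le, hx1.le⟩ with hX
      set p' := Function.update p i X with hp'
      have hp'2 : Fin2 p' := hp.update i X hx0 hx1
      have hpi : (p' i : ℝ) = x := by rw [hp', Function.update_self]
      have hoff : ∀ e ∉ B i, θ p' e = θ p e :=
        hF.off p' p i fun j hj => by rw [hp', Function.update_of_ne hj]
      have hblk : ∀ e ∈ B i, (θ p' e : ℝ) = if s e = true then x else 1 - x := by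
        intro e he
        rw [hF.blk p' i e he, hpi]
      have h3 := ih p' hp'2 n
      rw [← hC'] at h3
      have h4 : (indep (θ p')).real C = ∑ m ∈ range ((B i).card + 1),
          x ^ m * (1 - x) ^ ((B i).card - m) * GG (θ p) (B i) s m C := by
        rw [total (θ p') (B i) s hCm]
        refine Finset.sum_congr rfl fun m _ => ?_
        rw [block_eq (θ p') (B i) s hx0 hx1 hblk hCm, GG_congr s m C hoff]
      have h5 : (indep (θ p')).real C' = ∑ m ∈ range ((B i).card + 1),
          x ^ m * (1 - x) ^ ((B i).card - m) * GG (θ p) (B i) s m C' := by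
        rw [total (θ p') (B i) s hC'm]
        refine Finset.sum_congr rfl fun m _ => ?_
        rw [block_eq (θ p') (B i) s hx0 hx1 hblk hC'm, GG_congr s m C' hoff]
      rw [← hC, h4, h5, Finset.mul_sum] at h3
      rw [← sub_eq_zero, ← Finset.sum_sub_distrib] at h3
      rw [← h3]
      refine Finset.sum_congr rfl fun m _ => ?_
      ring
    rcases le_or_gt (n i) (B i).card with hle | hlt
    · have hpi := hp.1 i
      rw [block_eq (θ p) (B i) s hpi.1 hpi.2 (hF.blk p i) hCm,
        block_eq (θ p) (B i) s hpi.1 hpi.2 (hF.blk p i) hC'm]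
      have := key (n i) hle
      linear_combination ((p i : ℝ)) ^ n i * (1 - (p i:ℝ)) ^ ((B i).card - n i) * this
    · have hemp : ∀ S : Set Conf, S ∩ {ω | plus (B i) s ω = n i} = ∅ := by
        intro S
        ext ω
        simp only [Set.mem_inter_iff, Set.mem_setOf_eq, Set.mem_empty_iff_false, iff_false, not_and]
        intro _ h
        have := plus_le (B i) s ω
        omega
      rw [hemp, hemp, measureReal_empty, mul_zero]

/-- **independence of the counts** -/
theorem indep_field {ι : Type*} [Countable ι] {B : ι → Finset Edge} {s : Edge → Bool}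
    {θ : (ι → unitInterval) → Edge → unitInterval} (hF : Fam B s θ) {A : Set Conf}
    (hA : MeasurableSet A) {c : ℝ} (hc : ∀ p, Fin2 p → (indep (θ p)).real A = c)
    (p : ι → unitInterval) (hp : Fin2 p) {S : Set (ι → ℕ)} (hS : MeasurableSet S) :
    (indep (θ p)).real (A ∩ {ω | (fun i => plus (B i) s ω) ∈ S}) =
      c * (indep (θ p)).real {ω | (fun i => plus (B i) s ω) ∈ S} := by
  classical
  have hc0 : 0 ≤ c := by rw [← hc p hp]; exact measureReal_nonneg
  set f : Conf → (ι → ℕ) := fun ω i => plus (B i) s ω with hf
  have hfm : Measurable f := measurable_pi_lambda _ fun i => measurable_plus (B i) s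
  set μ1 : Measure (ι → ℕ) := ((indep (θ p)).restrict A).map f with hμ1
  set μ2 : Measure (ι → ℕ) := (ENNReal.ofReal c) • (indep (θ p)).map f with hμ2
  have hfin2 : IsFiniteMeasure μ2 := by
    constructor
    rw [hμ2, Measure.smul_apply, Measure.map_apply hfm MeasurableSet.univ, smul_eq_mul]
    exact ENNReal.mul_lt_top ENNReal.ofReal_lt_top (measure_lt_top _ _)
  have hfin1 : IsFiniteMeasure μ1 := by rw [hμ1]; infer_instance
  have hlim : ∀ K : Finset ι, μ1.map K.restrict = μ2.map K.restrict := by
    intro K
    apply Measure.ext_of_singleton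
    intro n0
    set n : ι → ℕ := fun i => if h : i ∈ K then n0 ⟨i, h⟩ else 0 with hn
    have hpre : f ⁻¹' (K.restrict ⁻¹' {n0}) = {ω | ∀ i ∈ K, plus (B i) s ω = n i} := by
      ext ω
      simp only [Set.mem_preimage, Set.mem_singleton_iff, Set.mem_setOf_eq, hf]
      constructor
      · intro h i hi
        have := congrFun h ⟨i, hi⟩
        simp only [Finset.restrict_def] at this
        rw [hn]
        simp only [hi, dif_pos]
        exact this
      · intro h
        funext ⟨i, hi⟩
        have := h i hi
        rw [hn] at this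
        simp only [hi, dif_pos] at this
        exact this
    have hr := K.measurable_restrict (X := fun _ : ι => ℕ)
    have ms : MeasurableSet ({n0} : Set (∀ i : K, ℕ)) := measurableSet_singleton _
    rw [Measure.map_apply hr ms, Measure.map_apply hr ms, hμ1, hμ2, Measure.smul_apply,
      Measure.map_apply hfm (hr ms), Measure.map_apply hfm (hr ms), hpre, smul_eq_mul]
    have hm : MeasurableSet {ω : Conf | ∀ i ∈ K, plus (B i) s ω = n i} := by
      rw [← hpre]; exact hfm (hr ms)
    rw [Measure.restrict_apply hm, Set.inter_comm]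
    have h := indep_finite hF hA hc K p hp n
    rw [← ofReal_measureReal, h, ENNReal.ofReal_mul hc0, ofReal_measureReal]
  have heq : μ1 = μ2 := by
    have h1 : IsProjectiveLimit μ1 (fun K : Finset ι => μ2.map K.restrict) := hlim
    have h2 : IsProjectiveLimit μ2 (fun K : Finset ι => μ2.map K.restrict) := fun K => rfl
    exact h1.unique h2
  have h3 : μ1 S = μ2 S := by rw [heq]
  rw [hμ1, hμ2, Measure.smul_apply, Measure.map_apply hfm hS, Measure.map_apply hfm hS,
    Measure.restrict_apply (hfm hS), smul_eq_mul, Set.inter_comm] at h3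
  show ((indep (θ p)) (A ∩ f ⁻¹' S)).toReal = c * ((indep (θ p)) (f ⁻¹' S)).toReal
  rw [h3, ENNReal.toReal_mul, ENNReal.toReal_ofReal hc0]

end Pool.Agent.Run7.h729.Ind
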