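import Pool.Agent.Run7.h729.Ind.Univ2
import Pool.Agent.Run7.h729.Ind.Block
import Pool.Agent.H984Q.Exact
import Pool.Agent.H984Q.Meas
import Pool.Agent.H31C.Main

/-! The slit strip crossing is independent of the numbers of the plus bits of the layers. -/

namespace Pool.Agent.Run7.h729.Ind

open Pool.Agent.H988R2.Perc Finset MeasureTheory ProbabilityTheory Pool.Agent.Run7.h729.Lay
open Pool.Agent.H863R4
open scoped unitInterval ENNReal

/-- the column of an edge -/
def col (e : Edge) : ℤ := if e.2.2 = true then e.1 - e.2.1 else e.1 - e.2.1 + 1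
/-- the height of an edge -/
def hgt (e : Edge) : ℤ := e.1 + e.2.1

theorem col_edge (c r : ℤ) : col (edge c r) = c := by
  unfold col edge
  split_ifs with h h' h'
  · simp only; omega
  · simp at h'
  · simp at h'
  · simp only; omega

theorem hgt_edge (c r : ℤ) : hgt (edge c r) = r := by
  unfold hgt edge
  split_ifs with h
  · simp only; omega
  · simp only; omega

theorem edge_col_hgt (e : Edge) : edge (col e) (hgt e) = e := by
  obtain ⟨u, v, d⟩ := e
  unfold edge col hgt
  cases d
  · simp only [Bool.false_eq_true, if_false]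
    rw [if_neg (by omega)]
    ext1
    · simp only; omega
    · ext1
      · simp only; omega
      · rfl
  · simp only [if_true]
    rw [if_pos (by omega)]
    ext1
    · simp only; omega
    · ext1
      · simp only; omega
      · rfl

theorem edge_inj {c r c' r' : ℤ} (h : edge c r = edge c' r') : c = c' ∧ r = r' :=
  ⟨by rw [← col_edge c r, h, col_edge], by rw [← hgt_edge c r, h, hgt_edge]⟩

/-- the columns of a block -/
noncomputable def cols (a b : ℕ) (i : ℤ × Bool) : Finset ℤ :=
  if i.1 < 0 then (if i.2 = false then Ioc (-(a:ℤ)) (b + 1) else ∅)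
    else (if i.2 = false then Ioc (-(a:ℤ)) 0 else Ioc 1 (b + 1))

/-- the edges of a block -/
noncomputable def Blk (a b : ℕ) (i : ℤ × Bool) : Finset Edge :=
  (cols a b i ×ˢ ({2 * i.1, 2 * i.1 + 1} : Finset ℤ)).image fun x => edge x.1 x.2

theorem mem_blk {a b : ℕ} {i : ℤ × Bool} {e : Edge} :
    e ∈ Blk a b i ↔ col e ∈ cols a b i ∧ hgt e / 2 = i.1 := by
  unfold Blk
  rw [Finset.mem_image]
  constructor
  · rintro ⟨⟨c, r⟩, hx, rfl⟩
    rw [Finset.mem_product] at hx
    simp only [Finset.mem_insert, Finset.mem_singleton] at hx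
    rw [col_edge, hgt_edge]
    exact ⟨hx.1, by omega⟩
  · rintro ⟨h1, h2⟩
    refine ⟨(col e, hgt e), ?_, edge_col_hgt e⟩
    rw [Finset.mem_product]
    simp only [Finset.mem_insert, Finset.mem_singleton]
    exact ⟨h1, by omega⟩

/-- the sign of an edge -/
def sgn (e : Edge) : Bool := decide (col e % 2 = 0)

/-- the block of an edge -/
def bi (e : Edge) : ℤ × Bool := (hgt e / 2, decide (0 ≤ hgt e ∧ 1 < col e))

theorem bi_of_mem {a b : ℕ} {i : ℤ × Bool} {e : Edge} (h : e ∈ Blk a b i) : bi e = i := by
  rw [mem_blk] at h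
  obtain ⟨h1, h2⟩ := h
  obtain ⟨j, d⟩ := i
  unfold cols at h1
  unfold bi
  simp only at h1 h2 ⊢
  ext1
  · exact h2
  · simp only
    cases d
    · simp only [if_true] at h1
      split_ifs at h1 with h3
      · rw [decide_eq_false]
        intro h; omega
      · rw [Finset.mem_Ioc] at h1
        rw [decide_eq_false]
        intro h; omega
    · simp only [Bool.true_eq_false, if_false] at h1
      split_ifs at h1 with h3
      · simp at h1
      · rw [Finset.mem_Ioc] at h1
        rw [decide_eq_true]
        omega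

/-- one half -/
noncomputable def half : unitInterval := ⟨1/2, by norm_num, by norm_num⟩

/-- the environment -/
noncomputable def θB (a b : ℕ) (p : ℤ × Bool → unitInterval) (e : Edge) : unitInterval :=
  if e ∈ Blk a b (bi e) then (if sgn e = true then p (bi e) else unitInterval.symm (p (bi e)))
    else half

theorem fam (a b : ℕ) : Fam (Blk a b) sgn (θB a b) := by
  constructor
  · intro p i e he
    have h := bi_of_mem he
    unfold θB
    rw [h, if_pos he]
    split_ifs
    · rfl
    · rfl
  · intro p p' i h e he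
    unfold θB
    by_cases h1 : e ∈ Blk a b (bi e)
    · rw [if_pos h1, if_pos h1]
      have h2 : bi e ≠ i := fun h3 => he (h3 ▸ h1)
      rw [h _ h2]
    · rw [if_neg h1, if_neg h1]

theorem envC (a b : ℕ) (p : ℤ × Bool → unitInterval) :
    EnvC (θB a b p) a b (fun j => p (j, false)) (fun j => p (j, true)) := by
  have key : ∀ (c r : ℤ) (i : ℤ × Bool), edge c r ∈ Blk a b i →
      (θB a b p (edge c r) : ℝ) = if c % 2 = 0 then (p i : ℝ) else 1 - p i := by
    intro c r i h
    rw [(fam a b).blk p i _ h]
    unfold sgn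
    rw [col_edge]
    simp only [decide_eq_true_eq]
  constructor
  · intro c r hr h1 h2
    rw [key c r (r / 2, false)]
    rw [mem_blk, col_edge, hgt_edge]
    refine ⟨?_, rfl⟩
    unfold cols
    simp only [if_true]
    rw [if_pos (by omega), Finset.mem_Ioc]
    exact ⟨h1, h2⟩
  · intro c r hr h1 h2
    rw [key c r (r / 2, false)]
    rw [mem_blk, col_edge, hgt_edge]
    refine ⟨?_, rfl⟩
    unfold cols
    simp only [if_true]
    rw [if_neg (by omega), Finset.mem_Ioc]
    exact ⟨h1, h2⟩
  · intro c r hr h1 h2
    rw [key c r (r / 2, true)]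
    rw [mem_blk, col_edge, hgt_edge]
    refine ⟨?_, rfl⟩
    unfold cols
    simp only [Bool.true_eq_false, if_false]
    rw [if_neg (by omega), Finset.mem_Ioc]
    exact ⟨h1, h2⟩

theorem ell_of_fin {p : ℤ × Bool → unitInterval} (h : Fin2 p) (d : Bool) :
    Ell (fun j => p (j, d)) (1/2) := by
  have hf : {j : ℤ | (p (j, d) : ℝ) ≠ 1/2}.Finite := by
    refine Set.Finite.of_injOn (f := fun j : ℤ => (j, d)) (t := {i | (p i : ℝ) ≠ 1/2}) ?_ ?_ h.2
    · intro j hj; exact hj
    · intro j _ j' _ hjj
      exact congrArg Prod.fst hjj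
  constructor
  · intro N
    have hi : (Set.Ici N).Infinite := Set.Ici_infinite N
    obtain ⟨j, hj, hj'⟩ := (hi.sdiff hf).nonempty
    have : (p (j, d) : ℝ) = 1/2 := by
      by_contra h3; exact hj' h3
    exact ⟨j, hj, by simp only [this]; norm_num, by simp only [this]; norm_num⟩
  · intro N
    have hi : (Set.Iic N).Infinite := Set.Iic_infinite N
    obtain ⟨j, hj, hj'⟩ := (hi.sdiff hf).nonempty
    have : (p (j, d) : ℝ) = 1/2 := by
      by_contra h3; exact hj' h3
    exact ⟨j, hj, by simp only [this]; norm_num, by simp only [this]; norm_num⟩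

theorem const_law {a b : ℕ} (ha : Odd a) (hb : Odd b) (p : ℤ × Bool → unitInterval)
    (hp : Fin2 p) : (indep (θB a b p)).real (SCross a b) = perc.real (SCross a b) :=
  cen_univ2 (by norm_num : (0:ℝ) < 1/2) (ell_of_fin hp false) (ell_of_fin hp true) ha hb
    (envC a b p)

theorem ber_half : (Ber(true, false, half) : Measure Bool) = coin := by
  apply Measure.ext_of_singleton
  intro x
  rw [ber_single]
  unfold coin
  rw [PMF.toMeasure_apply_singleton _ _ (measurableSet_singleton x)]
  simp only [PMF.uniformOfFintype_apply, Fintype.card_bool, wb, half]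
  cases x
  · simp only [Bool.false_eq_true, if_false]
    rw [show (1 - 1/2 : ℝ) = 2⁻¹ by norm_num, ENNReal.ofReal_inv_of_pos (by norm_num)]
    norm_num
  · simp only [if_true]
    rw [show (1/2 : ℝ) = 2⁻¹ by norm_num, ENNReal.ofReal_inv_of_pos (by norm_num)]
    norm_num

theorem indep_half : indep (fun _ => half) = perc := by
  unfold indep perc
  simp only [ber_half]

theorem θB_half (a b : ℕ) : θB a b (fun _ => half) = fun _ => half := by
  funext e
  unfold θB
  split_ifs
  · rfl
  · apply Subtype.ext
    show 1 - (1/2:ℝ) = 1/2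
    norm_num
  · rfl

/-- **independence for the critical percolation** -/
theorem perc_indep {a b : ℕ} {A : Set Conf} (hA : MeasurableSet A)
    (hAS : ∀ p, Fin2 p → (indep (θB a b p)).real A = perc.real A)
    {S : Set (ℤ × Bool → ℕ)} (hS : MeasurableSet S) :
    perc.real (A ∩ {ω | (fun i => plus (Blk a b i) sgn ω) ∈ S}) =
      perc.real A * perc.real {ω | (fun i => plus (Blk a b i) sgn ω) ∈ S} := by
  have hp : Fin2 (fun _ : ℤ × Bool => half) := by
    refine ⟨fun i => ?_, ?_⟩
    · show 0 < (1/2:ℝ) ∧ (1/2:ℝ) < 1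
      norm_num
    · convert Set.finite_empty
      ext i
      simp [half]
  have h := indep_field (fam a b) hA hAS (fun _ => half) hp hS
  rw [θB_half, indep_half] at h
  exact h

end Pool.Agent.Run7.h729.Ind
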