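import Pool.Agent.Run7.h729.Ind.Path

/-! The field of the row imbalances; measures with a density; pivotal edges. -/

namespace Pool.Agent.Run7.h729.Ind

open Pool.Agent.H988R2.Perc Finset MeasureTheory ProbabilityTheory Pool.Agent.Run7.h729.Lay
open Pool.Agent.H863R4
open scoped unitInterval ENNReal

/-- open edges in the even columns minus open edges in the odd columns, in the row pair `j`, over
the columns in `C` -/
def imb (C : Finset ℤ) (j : ℤ) (ω : Conf) : ℤ :=
  ∑ c ∈ C, ∑ r ∈ ({2 * j, 2 * j + 1} : Finset ℤ),
    if ω (edge c r) = true then (if c % 2 = 0 then 1 else -1) else 0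

theorem imb_eq (C : Finset ℤ) (j : ℤ) (ω : Conf) :
    imb C j ω = (plus ((C ×ˢ ({2 * j, 2 * j + 1} : Finset ℤ)).image fun x => edge x.1 x.2) sgn ω : ℤ)
      - ∑ c ∈ C, ∑ _r ∈ ({2 * j, 2 * j + 1} : Finset ℤ), if c % 2 = 0 then 0 else 1 := by
  unfold plus
  rw [Finset.card_filter, Finset.sum_image, Finset.sum_product]
  · push_cast
    rw [eq_sub_iff_add_eq]
    unfold imb
    rw [← Finset.sum_add_distrib]
    refine Finset.sum_congr rfl fun c _ => ?_
    rw [← Finset.sum_add_distrib]
    refine Finset.sum_congr rfl fun r _ => ?_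
    have hs : sgn (edge c r) = decide (c % 2 = 0) := by
      unfold sgn; rw [col_edge]
    simp only [hs]
    by_cases h : c % 2 = 0
    · cases h2 : ω (edge c r) <;> simp [h]
    · cases h2 : ω (edge c r) <;> simp [h]
  · rintro ⟨c, r⟩ _ ⟨c', r'⟩ _ h
    obtain ⟨h1, h2⟩ := edge_inj h
    exact Prod.ext h1 h2

/-- the field of the row imbalances; above the tip left and right of the slit -/
noncomputable def field (a b : ℕ) (ω : Conf) (j : ℤ) : ℤ × ℤ :=
  if j < 0 then (imb (Ioc (-(a:ℤ)) (b + 1)) j ω, 0)
    else (imb (Ioc (-(a:ℤ)) 0) j ω, imb (Ioc 1 ((b:ℤ) + 1)) j ω)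

/-- number of the edges in the odd columns of a block -/
noncomputable def od0 (a b : ℕ) (i : ℤ × Bool) : ℤ :=
  ∑ c ∈ cols a b i, ∑ _r ∈ ({2 * i.1, 2 * i.1 + 1} : Finset ℤ), if c % 2 = 0 then 0 else 1

/-- the field as a function of the counts -/
noncomputable def toF (a b : ℕ) (n : ℤ × Bool → ℕ) (j : ℤ) : ℤ × ℤ :=
  ((n (j, false) : ℤ) - od0 a b (j, false), (n (j, true) : ℤ) - od0 a b (j, true))

theorem measurable_toF (a b : ℕ) : Measurable (toF a b) := by
  refine measurable_pi_lambda _ fun j => ?_
  unfold toF
  refine Measurable.prodMk ?_ ?_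
  · exact (measurable_of_countable (fun m : ℕ => (m : ℤ) - od0 a b (j, false))).comp
      (measurable_pi_apply (j, false))
  · exact (measurable_of_countable (fun m : ℕ => (m : ℤ) - od0 a b (j, true))).comp
      (measurable_pi_apply (j, true))

theorem field_eq (a b : ℕ) (ω : Conf) :
    field a b ω = toF a b (fun i => plus (Blk a b i) sgn ω) := by
  have key : ∀ i : ℤ × Bool, (plus (Blk a b i) sgn ω : ℤ) - od0 a b i = imb (cols a b i) i.1 ω := by
    intro i
    rw [imb_eq]
    rfl
  funext j
  unfold toF
  rw [key, key]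
  unfold field cols
  simp only [if_true, Bool.true_eq_false, if_false]
  split_ifs
  · congr 1
  · rfl

theorem field_pre (a b : ℕ) (S : Set (ℤ → ℤ × ℤ)) :
    {ω | field a b ω ∈ S} = {ω | (fun i => plus (Blk a b i) sgn ω) ∈ toF a b ⁻¹' S} := by
  ext ω
  show field a b ω ∈ S ↔ toF a b (fun i => plus (Blk a b i) sgn ω) ∈ S
  rw [field_eq]

theorem measurable_field (a b : ℕ) : Measurable (field a b) := by
  have h : field a b = fun ω => toF a b (fun i => plus (Blk a b i) sgn ω) := by
    funext ω; exact field_eq a b ω
  rw [h]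
  exact (measurable_toF a b).comp (measurable_pi_lambda _ fun i => measurable_plus _ _)

theorem field_scross {a b : ℕ} (ha : Odd a) (hb : Odd b) {S : Set (ℤ → ℤ × ℤ)}
    (hS : MeasurableSet S) :
    perc.real (SCross a b ∩ {ω | field a b ω ∈ S}) =
      perc.real (SCross a b) * perc.real {ω | field a b ω ∈ S} := by
  rw [field_pre]
  exact scross_indep ha hb (measurable_toF a b hS)

theorem field_right {a b : ℕ} (ha : Odd a) (hb : Odd b) {S : Set (ℤ → ℤ × ℤ)}
    (hS : MeasurableSet S) :
    perc.real (H984Q.RightFirst a b ∩ {ω | field a b ω ∈ S}) =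
      perc.real (H984Q.RightFirst a b) * perc.real {ω | field a b ω ∈ S} := by
  rw [field_pre]
  exact right_indep ha hb (measurable_toF a b hS)

theorem field_left {a b : ℕ} (ha : Odd a) (hb : Odd b) {S : Set (ℤ → ℤ × ℤ)}
    (hS : MeasurableSet S) :
    perc.real (H984Q.LeftFirst a b ∩ {ω | field a b ω ∈ S}) =
      perc.real (H984Q.LeftFirst a b) * perc.real {ω | field a b ω ∈ S} := by
  rw [field_pre]
  exact left_indep ha hb (measurable_toF a b hS)

/-- independence of an event and a random variable: integrals -/
theorem lint_law {Ω F : Type*} [MeasurableSpace Ω] [MeasurableSpace F] (μ : Measure Ω)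
    [IsProbabilityMeasure μ] {f : Ω → F} (hf : Measurable f) {A : Set Ω}
    (h : ∀ S : Set F, MeasurableSet S → μ.real (A ∩ {ω | f ω ∈ S}) =
      μ.real A * μ.real {ω | f ω ∈ S})
    {g : F → ℝ≥0∞} (hg : Measurable g) :
    ∫⁻ ω in A, g (f ω) ∂μ = μ A * ∫⁻ ω, g (f ω) ∂μ := by
  have hm : (μ.restrict A).map f = μ A • μ.map f := by
    ext S hS
    rw [Measure.map_apply hf hS, Measure.smul_apply, Measure.map_apply hf hS, smul_eq_mul,
      Measure.restrict_apply (hf hS), Set.inter_comm]
    have h2 := h S hS
    rw [← ofReal_measureReal, ← ofReal_measureReal (s := A), ← ofReal_measureReal (s := f ⁻¹' S),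
      ← ENNReal.ofReal_mul measureReal_nonneg]
    congr 1
  calc ∫⁻ ω in A, g (f ω) ∂μ = ∫⁻ x, g x ∂((μ.restrict A).map f) := (lintegral_map hg hf).symm
    _ = μ A * ∫⁻ x, g x ∂(μ.map f) := by rw [hm, lintegral_smul_measure, smul_eq_mul]
    _ = μ A * ∫⁻ ω, g (f ω) ∂μ := by rw [lintegral_map hg hf]

/-- independence of an event and a random variable: densities -/
theorem density_law {Ω F : Type*} [MeasurableSpace Ω] [MeasurableSpace F] (μ : Measure Ω)
    [IsProbabilityMeasure μ] {f : Ω → F} (hf : Measurable f) {A : Set Ω} (hA : MeasurableSet A)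
    (h : ∀ S : Set F, MeasurableSet S → μ.real (A ∩ {ω | f ω ∈ S}) =
      μ.real A * μ.real {ω | f ω ∈ S})
    {g : F → ℝ≥0∞} (hg : Measurable g) (h1 : ∫⁻ ω, g (f ω) ∂μ = 1) :
    (μ.withDensity fun ω => g (f ω)).real A = μ.real A := by
  rw [measureReal_def, measureReal_def, withDensity_apply _ hA, lint_law μ hf h hg, h1, mul_one]

/-! ### pivotal edges -/

/-- flip one edge -/
def flp (e : Edge) (ω : Conf) : Conf := fun i => (if i = e then (!(ω i)) else ω i)

theorem measurable_flp (e : Edge) : Measurable (flp e) := by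
  refine measurable_pi_lambda _ fun i => ?_
  exact (measurable_of_countable (fun b : Bool => if i = e then !b else b)).comp
    (measurable_pi_apply i)

theorem flp_map (e : Edge) : perc.map (flp e) = perc := by
  unfold perc
  have h := Measure.infinitePi_map_pi (μ := fun _ : Edge => coin)
    (f := fun i : Edge => fun b : Bool => if i = e then !b else b)
    (fun _ => measurable_of_countable _)
  have h2 : ∀ i : Edge, coin.map (fun b : Bool => if i = e then !b else b) = coin := by
    intro i
    by_cases hi : i = e
    · simp only [hi, if_true]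
      exact H492E.E3.coin_map
    · simp only [hi, if_false]
      exact Measure.map_id
  simp only [h2] at h
  exact h

/-- `e` is pivotal for the event `A` -/
def Piv (e : Edge) (A : Set Conf) : Set Conf :=
  {ω | Function.update ω e true ∈ A ∧ Function.update ω e false ∉ A}

theorem measurable_upd (e : Edge) (b : Bool) :
    Measurable (fun ω : Conf => Function.update ω e b) := by
  refine measurable_pi_lambda _ fun i => ?_
  by_cases h : i = e
  · subst h
    simp only [Function.update_self]
    exact measurable_const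
  · simp only [Function.update_of_ne h]
    exact measurable_pi_apply i

theorem half_of_inv (e : Edge) (b : Bool) {A : Set Conf} (hA : MeasurableSet A) :
    perc.real {ω | Function.update ω e b ∈ A} = 2 * perc.real (A ∩ {ω | ω e = b}) := by
  set A' : Set Conf := {ω | Function.update ω e b ∈ A} with hA'
  have mA' : MeasurableSet A' := measurable_upd e b hA
  have mb : ∀ c : Bool, MeasurableSet {ω : Conf | ω e = c} := fun c => by
    have h := measurable_pi_apply (X := fun _ : Edge => Bool) e (measurableSet_singleton c)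
    exact h
  have e1 : A ∩ {ω | ω e = b} = A' ∩ {ω | ω e = b} := by
    ext ω
    simp only [Set.mem_inter_iff, hA']
    constructor
    · rintro ⟨h1, h2⟩
      refine ⟨?_, h2⟩
      show Function.update ω e b ∈ A
      have h3 : ω e = b := h2
      rw [← h3, Function.update_eq_self]
      exact h1
    · rintro ⟨h1, h2⟩
      refine ⟨?_, h2⟩
      have h3 : ω e = b := h2
      have h4 : Function.update ω e b ∈ A := h1
      rwa [← h3, Function.update_eq_self] at h4
  have e2 : flp e ⁻¹' (A' ∩ {ω | ω e = b}) = A' ∩ {ω | ω e = !b} := by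
    ext ω
    have h5 : Function.update (flp e ω) e b = Function.update ω e b := by
      funext i
      by_cases h : i = e
      · subst h; simp
      · simp [Function.update_of_ne h, flp, h]
    have h6 : (flp e ω) e = !(ω e) := by simp [flp]
    constructor
    · rintro ⟨h1, h2⟩
      refine ⟨?_, ?_⟩
      · show Function.update ω e b ∈ A
        rw [← h5]; exact h1
      · have h7 : (flp e ω) e = b := h2
        rw [h6] at h7
        show ω e = !b
        rw [← h7]; simp
    · rintro ⟨h1, h2⟩
      refine ⟨?_, ?_⟩
      · show Function.update (flp e ω) e b ∈ A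
        rw [h5]; exact h1
      · have h7 : ω e = !b := h2
        show (flp e ω) e = b
        rw [h6, h7]; simp
  have e3 : perc.real (A' ∩ {ω | ω e = !b}) = perc.real (A' ∩ {ω | ω e = b}) := by
    rw [← e2, measureReal_def, measureReal_def,
      ← Measure.map_apply (measurable_flp e) (mA'.inter (mb b)), flp_map]
  have e4 : perc.real (A' ∩ {ω | ω e = b}) + perc.real (A' \ {ω | ω e = b}) = perc.real A' :=
    measureReal_inter_add_sdiff (mb b)
  have e5 : A' \ {ω : Conf | ω e = b} = A' ∩ {ω | ω e = !b} := by
    ext ω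
    constructor
    · rintro ⟨h1, h2⟩
      refine ⟨h1, ?_⟩
      show ω e = !b
      have h3 : ¬ ω e = b := h2
      revert h3
      cases ω e <;> cases b <;> simp
    · rintro ⟨h1, h2⟩
      refine ⟨h1, ?_⟩
      intro h3
      have h4 : ω e = !b := h2
      have h5 : ω e = b := h3
      rw [h4] at h5
      cases b <;> simp at h5
  rw [e5, e3] at e4
  rw [e1]
  linarith

/-- an increasing event: the pivotal probability -/
theorem piv_prob (e : Edge) {A : Set Conf} (hA : MeasurableSet A)
    (hmono : ∀ ω, Function.update ω e false ∈ A → Function.update ω e true ∈ A) :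
    perc.real (Piv e A) =
      2 * (perc.real (A ∩ {ω | ω e = true}) - perc.real (A ∩ {ω | ω e = false})) := by
  have h1 := half_of_inv e true hA
  have h2 := half_of_inv e false hA
  have m2 : MeasurableSet {ω : Conf | Function.update ω e false ∈ A} := measurable_upd e false hA
  have h3 : Piv e A = {ω : Conf | Function.update ω e true ∈ A} \
      {ω : Conf | Function.update ω e false ∈ A} := by
    ext ω; rfl
  have h4 : {ω : Conf | Function.update ω e false ∈ A} ⊆
      {ω : Conf | Function.update ω e true ∈ A} := fun ω h => hmono ω h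
  rw [h3, measureReal_sdiff h4 m2, h1, h2]
  ring

theorem sum_plus (B : Finset Edge) (s : Edge → Bool) {A : Set Conf} (hA : MeasurableSet A) :
    ∫⁻ ω in A, (plus B s ω : ℝ≥0∞) ∂perc = ∑ e ∈ B, perc (A ∩ {ω | ω e = s e}) := by
  classical
  have mb : ∀ e, MeasurableSet {ω : Conf | ω e = s e} := fun e => by
    have h := measurable_pi_apply (X := fun _ : Edge => Bool) e (measurableSet_singleton (s e))
    exact h
  have h1 : ∀ ω : Conf, (plus B s ω : ℝ≥0∞) =
      ∑ e ∈ B, {ω : Conf | ω e = s e}.indicator (fun _ => (1:ℝ≥0∞)) ω := by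
    intro ω
    unfold plus
    rw [Finset.card_filter]
    push_cast
    refine Finset.sum_congr rfl fun e _ => ?_
    by_cases h : ω e = s e
    · rw [Set.indicator_of_mem (show ω ∈ {ω : Conf | ω e = s e} from h), if_pos h]
    · rw [Set.indicator_of_notMem (show ω ∉ {ω : Conf | ω e = s e} from h), if_neg h]
  simp only [h1]
  rw [lintegral_finsetSum]
  · refine Finset.sum_congr rfl fun e _ => ?_
    rw [lintegral_indicator (mb e), lintegral_const, one_mul,
      Measure.restrict_apply MeasurableSet.univ, Set.univ_inter, Measure.restrict_apply (mb e),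
      Set.inter_comm]
  · intro e _
    exact measurable_const.indicator (mb e)

/-- an increasing event which is independent of the counts: the expected numbers of the pivotal
edges of the two kinds are equal -/
theorem piv_balance {i : ℤ × Bool} {a b : ℕ} {A : Set Conf} (hA : MeasurableSet A)
    (hmono : ∀ e ω, Function.update ω e false ∈ A → Function.update ω e true ∈ A)
    (h : ∀ S : Set (ℤ × Bool → ℕ), MeasurableSet S →
      perc.real (A ∩ {ω | (fun i => plus (Blk a b i) sgn ω) ∈ S}) =
        perc.real A * perc.real {ω | (fun i => plus (Blk a b i) sgn ω) ∈ S}) :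
    ∑ e ∈ (Blk a b i).filter (fun e => sgn e = true), perc.real (Piv e A) =
      ∑ e ∈ (Blk a b i).filter (fun e => sgn e = false), perc.real (Piv e A) := by
  classical
  set B := Blk a b i with hB
  have mb : ∀ (e : Edge) (c : Bool), MeasurableSet {ω : Conf | ω e = c} := fun e c => by
    have h := measurable_pi_apply (X := fun _ : Edge => Bool) e (measurableSet_singleton c)
    exact h
  have mf : Measurable (fun (ω : Conf) (i : ℤ × Bool) => plus (Blk a b i) sgn ω) :=
    measurable_pi_lambda _ fun i => measurable_plus _ _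
  have mg : Measurable (fun n : ℤ × Bool → ℕ => (n i : ℝ≥0∞)) :=
    (measurable_of_countable (fun m : ℕ => (m : ℝ≥0∞))).comp (measurable_pi_apply i)
  have e1 := lint_law perc mf h mg
  have e2 := sum_plus B sgn hA
  have e3 := sum_plus B sgn (MeasurableSet.univ)
  rw [Measure.restrict_univ] at e3
  have e1' : ∫⁻ ω in A, (plus B sgn ω : ℝ≥0∞) ∂perc =
      perc A * ∫⁻ ω, (plus B sgn ω : ℝ≥0∞) ∂perc := e1
  rw [e2, e3] at e1'
  have e4 : ∑ e ∈ B, perc.real (A ∩ {ω | ω e = sgn e}) =
      perc.real A * ∑ e ∈ B, perc.real ({ω : Conf | ω e = sgn e}) := by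
    have h5 := congrArg ENNReal.toReal e1'
    rw [ENNReal.toReal_mul, ENNReal.toReal_sum (fun _ _ => measure_ne_top _ _),
      ENNReal.toReal_sum (fun _ _ => measure_ne_top _ _)] at h5
    simpa only [measureReal_def, Set.univ_inter] using h5
  have e5 : ∀ (e : Edge) (c : Bool), perc.real {ω : Conf | ω e = c} = 1 / 2 := by
    intro e c
    have h6 := half_of_inv e c (A := Set.univ) MeasurableSet.univ
    rw [Set.univ_inter] at h6
    have h7 : {ω : Conf | Function.update ω e c ∈ (Set.univ : Set Conf)} = Set.univ := by
      ext ω; exact ⟨fun _ => trivial, fun _ => trivial⟩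
    rw [h7, probReal_univ] at h6
    linarith
  have e6 : ∀ e : Edge, perc.real (A ∩ {ω | ω e = true}) + perc.real (A ∩ {ω | ω e = false}) =
      perc.real A := by
    intro e
    have h8 : perc.real (A ∩ {ω | ω e = true}) + perc.real (A \ {ω | ω e = true}) = perc.real A :=
      measureReal_inter_add_sdiff (mb e true)
    have h9 : A \ {ω : Conf | ω e = true} = A ∩ {ω | ω e = false} := by
      ext ω
      constructor
      · rintro ⟨h1, h2⟩
        exact ⟨h1, Bool.eq_false_iff.mpr h2⟩
      · rintro ⟨h1, h2⟩
        refine ⟨h1, fun h3 => ?_⟩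
        have h4 : ω e = false := h2
        have h5 : ω e = true := h3
        rw [h4] at h5
        cases h5
    rwa [h9] at h8
  have e7 : ∀ e ∈ B, 2 * (2 * perc.real (A ∩ {ω | ω e = sgn e}) - perc.real A) =
      (if sgn e = true then perc.real (Piv e A) else - perc.real (Piv e A)) := by
    intro e _
    have h10 := piv_prob e hA (hmono e)
    have h11 := e6 e
    cases h12 : sgn e
    · simp only [Bool.false_eq_true, if_false]
      rw [h10]; linarith
    · simp only [if_true]
      rw [h10]; linarith
  have e8 : ∑ e ∈ B, (if sgn e = true then perc.real (Piv e A) else - perc.real (Piv e A)) = 0 := by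
    rw [← Finset.sum_congr rfl e7, ← Finset.mul_sum, Finset.sum_sub_distrib, ← Finset.mul_sum, e4,
      Finset.sum_congr rfl (fun e _ => e5 e (sgn e)), Finset.sum_const, Finset.sum_const]
    simp only [nsmul_eq_mul]
    ring
  rw [Finset.sum_ite, Finset.sum_neg_distrib] at e8
  have e9 : B.filter (fun e => ¬ sgn e = true) = B.filter (fun e => sgn e = false) := by
    refine Finset.filter_congr fun e _ => ?_
    exact Bool.not_eq_true _ ▸ Iff.rfl
  rw [e9] at e8
  linarith

end Pool.Agent.Run7.h729.Ind
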