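import Pool.Agent.Run7.h729.Ind.App

/-! The exploration path: the side of the exit is the crossing event up to a null set. -/

namespace Pool.Agent.Run7.h729.Ind

open Pool.Agent.H988R2.Perc Finset MeasureTheory ProbabilityTheory Pool.Agent.Run7.h729.Lay
open Pool.Agent.H863R4
open scoped unitInterval ENNReal

theorem scross_pre {a k : ℕ} (hk : a = 2 * k + 1) (b : ℕ) :
    (fun ω : Conf => fun i => ω ((sh (k + 1) (-k)).symm i)) ⁻¹' (H31C.Cross a b) = SCross a b := by
  have hkz : (a:ℤ) = 2 * k + 1 := by exact_mod_cast hk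
  have hstep : ∀ (ω : Conf) (x y : ℤ × ℤ), SAdj a b ω x y ↔
      H31C.SlitAdj a (a+b+1) (fun i => ω ((sh (k+1) (-k)).symm i)) (x.1 + (k+1), x.2 + (-k))
        (y.1 + (k+1), y.2 + (-k)) := by
    intro ω x y
    unfold SAdj H31C.SlitAdj
    rw [openAdj_sh]
    simp only
    push_cast
    constructor
    · rintro ⟨e1, e2, e3, e4, e5, e6⟩
      exact ⟨e1, by omega, by omega, by omega, by omega, by omega⟩
    · rintro ⟨e1, e2, e3, e4, e5, e6⟩
      exact ⟨e1, by omega, by omega, by omega, by omega, by omega⟩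
  ext ω
  constructor
  · rintro ⟨x, y, h1, h2, h3, h4⟩
    refine ⟨(x.1 - (k+1), x.2 - (-k)), (y.1 - (k+1), y.2 - (-k)), ?_, ?_, ?_, ?_⟩
    · show x.1 - (k+1) - (x.2 - (-k)) = 0; omega
    · show 0 ≤ x.1 - (k+1) + (x.2 - (-k)); omega
    · show y.1 - (k+1) - (y.2 - (-k)) = (b:ℤ) + 1; push_cast at h3; omega
    · refine h4.lift (fun z : ℤ × ℤ => (z.1 - (k+1), z.2 - (-k))) fun p q hpq => ?_
      show SAdj a b ω (p.1 - (k+1), p.2 - (-k)) (q.1 - (k+1), q.2 - (-k))
      rw [hstep]
      simpa using hpq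
  · rintro ⟨x, y, h1, h2, h3, h4⟩
    refine ⟨(x.1 + (k+1), x.2 + (-k)), (y.1 + (k+1), y.2 + (-k)), ?_, ?_, ?_, ?_⟩
    · show x.1 + (k+1) - (x.2 + (-k)) = (a:ℤ); omega
    · show 1 ≤ x.1 + (k+1) + (x.2 + (-k)); omega
    · show y.1 + (k+1) - (y.2 + (-k)) = ((a+b+1 : ℕ) : ℤ); push_cast; omega
    · exact h4.lift (fun z : ℤ × ℤ => (z.1 + (k+1), z.2 + (-k))) fun p q hpq => (hstep ω p q).mp hpq

theorem meas_scross {a : ℕ} (ha : Odd a) (b : ℕ) : MeasurableSet (SCross a b) := by
  obtain ⟨k, hk⟩ := ha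
  rw [← scross_pre hk b]
  refine measurableSet_preimage ?_ (H492E.E3_cross a b)
  exact measurable_pi_lambda _ fun i => measurable_pi_apply _

/-- **the crossing event is independent of the counts** -/
theorem scross_indep {a b : ℕ} (ha : Odd a) (hb : Odd b)
    {S : Set (ℤ × Bool → ℕ)} (hS : MeasurableSet S) :
    perc.real (SCross a b ∩ {ω | (fun i => plus (Blk a b i) sgn ω) ∈ S}) =
      perc.real (SCross a b) * perc.real {ω | (fun i => plus (Blk a b i) sgn ω) ∈ S} :=
  perc_indep (meas_scross ha b) (fun p hp => const_law ha hb p hp) hS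

theorem right_sub' {a b : ℕ} (ha : Odd a) (hb : Odd b) : H984Q.RightFirst a b ⊆ SCross a b := by
  obtain ⟨k, hk⟩ := ha
  intro ω hω
  rw [← scross_pre hk b]
  subst hk
  apply H984Q.right_sub k b hb
  have : H984Q.tr k (fun i => ω ((sh (k + 1) (-k)).symm i)) = ω := by
    funext e
    obtain ⟨u, v, d⟩ := e
    unfold H984Q.tr sh
    simp only [Equiv.coe_fn_symm_mk]
    congr 2
    · ring
    · congr 1
      ring
  rw [this]
  exact hω

theorem right_ae {a b : ℕ} (ha : Odd a) (hb : Odd b) :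
    H984Q.RightFirst a b =ᵐ[perc] SCross a b := by
  have h1 := (H984Q.exact_all H31C.exact_cardy a b ha hb).1
  have h2 := scross_eq ha b
  rw [H31C.exact_cardy a b ha hb, ← h1] at h2
  refine ae_eq_of_subset_of_measure_ge (right_sub' ha hb) ?_
    (H984Q.m_events a b).1.nullMeasurableSet (measure_ne_top _ _)
  rw [← ofReal_measureReal, ← ofReal_measureReal (s := H984Q.RightFirst a b), h2]

theorem left_ae {a b : ℕ} (ha : Odd a) (hb : Odd b) :
    H984Q.LeftFirst a b =ᵐ[perc] ((H984Q.RightFirst a b)ᶜ : Set Conf) := by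
  have h1 := (H984Q.exact_all H31C.exact_cardy a b ha hb).2.2
  have h2 := H984Q.disj a b
  filter_upwards [h1] with ω hω
  apply propext
  constructor
  · intro h3 h4
    exact (Set.disjoint_left.mp h2 h4) h3
  · intro h3
    rcases hω with h | h
    · exact absurd h h3
    · exact h

theorem right_indep {a b : ℕ} (ha : Odd a) (hb : Odd b)
    {S : Set (ℤ × Bool → ℕ)} (hS : MeasurableSet S) :
    perc.real (H984Q.RightFirst a b ∩ {ω | (fun i => plus (Blk a b i) sgn ω) ∈ S}) =
      perc.real (H984Q.RightFirst a b) *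
        perc.real {ω | (fun i => plus (Blk a b i) sgn ω) ∈ S} := by
  have h := right_ae ha hb
  rw [measureReal_congr h, ← scross_indep ha hb hS]
  exact measureReal_congr (h.inter (ae_eq_refl _))

theorem left_indep {a b : ℕ} (ha : Odd a) (hb : Odd b)
    {S : Set (ℤ × Bool → ℕ)} (hS : MeasurableSet S) :
    perc.real (H984Q.LeftFirst a b ∩ {ω | (fun i => plus (Blk a b i) sgn ω) ∈ S}) =
      perc.real (H984Q.LeftFirst a b) *
        perc.real {ω | (fun i => plus (Blk a b i) sgn ω) ∈ S} := by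
  have h := left_ae ha hb
  have hm := (H984Q.m_events a b).1
  set F : Set Conf := {ω | (fun i => plus (Blk a b i) sgn ω) ∈ S} with hF
  rw [measureReal_congr h, probReal_compl_eq_one_sub hm]
  rw [measureReal_congr (h.inter (ae_eq_refl F))]
  have h3 : perc.real (F ∩ H984Q.RightFirst a b) + perc.real (F \ H984Q.RightFirst a b) =
      perc.real F := measureReal_inter_add_sdiff hm
  rw [Set.inter_comm, right_indep ha hb hS, ← hF] at h3
  have h4 : F \ H984Q.RightFirst a b = (H984Q.RightFirst a b)ᶜ ∩ F := by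
    rw [Set.sdiff_eq, Set.inter_comm]
  rw [h4] at h3
  linarith

end Pool.Agent.Run7.h729.Ind
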