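import Pool.Agent.Run7.h729.Lay.Cen

/-! Universality when the two sides of the slit have different layered environments. Only the
probabilities of the edges of the slit strip matter. -/

namespace Pool.Agent.Run7.h729.Ind

open Pool.Agent.H988R2.Perc Pool.Agent.H980R3.Slit Finset MeasureTheory ProbabilityTheory
open Filter Topology Pool.Agent.H863R4 Pool.Agent.Run7.h729.Lay

theorem WS_congr {θ θ' : ℕ × ℕ → ℝ} {S : Finset (ℕ × ℕ)} (h : ∀ j ∈ S, θ j = θ' j)
    (Y : Finset (ℕ × ℕ) → St) : WS θ S Y = WS θ' S Y := by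
  unfold WS
  refine Finset.sum_congr rfl fun t _ => ?_
  have : wt θ S t = wt θ' S t := by
    unfold wt
    refine Finset.prod_congr rfl fun j hj => ?_
    rw [h j hj]
  rw [this]

/-- probabilities of the edges of the slit strip (coordinates of the slit strip project) -/
structure Env2 (θ : Edge → unitInterval) (a b : ℕ) (P Q : ℤ → unitInterval) : Prop where
  past : ∀ i r : ℤ, r < 0 → 1 ≤ i → i ≤ a + b + 1 →
    (θ (edgeOf i r) : ℝ) = if i % 2 = 1 then (P (r / 2) : ℝ) else 1 - P (r / 2)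
  left : ∀ i r : ℤ, 0 ≤ r → 1 ≤ i → i ≤ a →
    (θ (edgeOf i r) : ℝ) = if i % 2 = 1 then (P (r / 2) : ℝ) else 1 - P (r / 2)
  right : ∀ i r : ℤ, 0 ≤ r → a + 2 ≤ i → i ≤ a + b + 1 →
    (θ (edgeOf i r) : ℝ) = if i % 2 = 1 then (Q (r / 2) : ℝ) else 1 - Q (r / 2)

variable {θ : Edge → unitInterval} {a b : ℕ} {P Q : ℤ → unitInterval}

theorem lawPast2 (h : Env2 θ a b P Q) (M : ℕ) :
    WS (θP θ M) (T23.SS (a+b+1) M) (fun t => X (a+b+1) (actBit (T23.bits t)) M) =
      lawP (fun m => (πP P M m : ℂ)) (a+b+1) M := by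
  rw [lawP_eq (fun j => if j.2 % 2 = 1 then πP P M (j.1 / 2) else 1 - πP P M (j.1 / 2)) (πP P M)
    (fun _ _ => rfl)]
  refine WS_congr (fun j hj => ?_) _
  rw [T23.mem_SS] at hj
  unfold θP T23.eP πP
  rw [h.past _ _ (by omega) (by omega) (by push_cast; omega)]
  have e : ((j.1 : ℤ) - 2 * M) / 2 = ((j.1 / 2 : ℕ) : ℤ) - M := by omega
  have e2 : ((j.2 : ℤ) % 2 = 1) ↔ j.2 % 2 = 1 := by omega
  simp only [e, e2]

theorem lawFut2 (h : Env2 θ a b P Q) (M : ℕ) :
    WS (θF θ M) (T23.SS a M) (fun t => X a (actBit (T23.bits t)) M) =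
      lawP (fun m => (πF P M m : ℂ)) a M := by
  rw [lawP_eq (fun j => if j.2 % 2 = 1 then πF P M (j.1 / 2) else 1 - πF P M (j.1 / 2)) (πF P M)
    (fun _ _ => rfl)]
  refine WS_congr (fun j hj => ?_) _
  rw [T23.mem_SS] at hj
  unfold θF T23.eF πF
  rw [h.left _ _ (by omega) (by omega) (by omega)]
  have e : (2 * (M : ℤ) - 1 - j.1) / 2 = (M : ℤ) - 1 - ((j.1 / 2 : ℕ) : ℤ) := by omega
  have e2 : ((j.2 : ℤ) % 2 = 1) ↔ j.2 % 2 = 1 := by omega
  simp only [e, e2]

theorem lawFutR2 (h : Env2 θ a b P Q) (ha : Odd a) (M : ℕ) :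
    WS (θR θ a M) (T23.SS b M) (fun t => X b (actBit (T23.bits t)) M) =
      lawP (fun m => (πF Q M m : ℂ)) b M := by
  rw [lawP_eq (fun j => if j.2 % 2 = 1 then πF Q M (j.1 / 2) else 1 - πF Q M (j.1 / 2)) (πF Q M)
    (fun _ _ => rfl)]
  refine WS_congr (fun j hj => ?_) _
  rw [T23.mem_SS] at hj
  unfold θR C08.eR πF
  rw [h.right _ _ (by omega) (by omega) (by push_cast; omega)]
  have e : (2 * (M : ℤ) - 1 - j.1) / 2 = (M : ℤ) - 1 - ((j.1 / 2 : ℕ) : ℤ) := by omega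
  have ha' := Nat.odd_iff.mp ha
  have e2 : (((j.2 : ℤ) + (a + 1)) % 2 = 1) ↔ j.2 % 2 = 1 := by omega
  simp only [e, e2]

/-- **universality of the slit strip crossings, two environments** -/
theorem slit_univ2 {ε : ℝ} (h0 : 0 < ε) (hP : Ell P ε) (hQ : Ell Q ε) (ha : Odd a) (hb : Odd b)
    (hθ : Env2 θ a b P Q) :
    (indep θ).real (SlitCross a b) = perc.real (SlitCross a b) := by
  have h4 := t_C04 t_C01 t_C02 t_C03
  have h5 := t_C05 t_C01 t_C02 t_C03
  have h1 : ε ≤ 1 := by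
    obtain ⟨j, _, h2, h3⟩ := hP.1 0
    linarith [(P j).2.2]
  have hL : Odd (a + b + 1) := (ha.add_odd hb).add_one
  have e1 : Tendsto (fun M => (indep θ).real (WinS a b M)) atTop
      (𝓝 ((indep θ).real (SlitCross a b))) := by
    have h1 : Tendsto (fun M => indep θ (WinS a b M)) atTop
        (𝓝 (indep θ (⋃ M, WinS a b M))) :=
      tendsto_measure_iUnion_atTop (winS_mono h4 h5 ha hb)
    rw [iUnion_winS h4 h5 t_C06 t_C07 ha hb] at h1
    exact (ENNReal.tendsto_toReal (measure_ne_top (indep θ) (SlitCross a b))).comp h1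
  have e2 : Tendsto (fun M => (((indep θ).real (WinS a b M) : ℝ) : ℂ)) atTop
      (𝓝 (((indep θ).real (SlitCross a b) : ℝ) : ℂ)) :=
    (Complex.continuous_ofReal.tendsto _).comp e1
  have e3 := (t_C13 t_C11) a b (fun M => lawP (fun m => (πP P M m : ℂ)) (a+b+1) M)
    (fun M => lawP (fun m => (πF P M m : ℂ)) a M) (fun M => lawP (fun m => (πF Q M m : ℂ)) b M)
    _ _ _
    (law_psi1 h0 h1 hL (πP P) (fun M m => unit_pos _) (cnt_past hP))
    (law_psi1 h0 h1 ha (πF P) (fun M m => unit_pos _) (cnt_fut hP))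
    (law_psi1 h0 h1 hb (πF Q) (fun M m => unit_pos _) (cnt_fut hQ))
  have e4 : Tendsto (fun M => (((indep θ).real (WinS a b M) : ℝ) : ℂ)) atTop
      (𝓝 (pair3 a b ((mass (psi1 (a+b+1)))⁻¹ • psi1 (a+b+1)) ((mass (psi1 a))⁻¹ • psi1 a)
        ((mass (psi1 b))⁻¹ • psi1 b))) := by
    refine e3.congr fun M => ?_
    rw [winS_prob, lawPast2 hθ, lawFut2 hθ, lawFutR2 hθ ha]
  have e5 := tendsto_nhds_unique e2 e4
  have e6 := final a b ha hb
  obtain ⟨_, _, _, s1, s2, s3, _⟩ := t_C11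
  rw [s1, s2, s3] at e5
  have n0 := psi1_mass_ne _ hL
  have n1 := psi1_mass_ne a ha
  have n2 := psi1_mass_ne b hb
  have e7 : (((indep θ).real (SlitCross a b) : ℝ) : ℂ) =
      ((perc.real (SlitCross a b) : ℝ) : ℂ) := by
    rw [e5, e6]
    field_simp
  exact_mod_cast e7

/-- the edge between the columns `c-1`, `c` and the heights `r`, `r+1` -/
def edge (c r : ℤ) : Edge :=
  if (c + r) % 2 = 0 then ((c + r) / 2, (r - c) / 2, true)
    else ((c + r - 1) / 2, (r - c + 1) / 2, false)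

theorem sh_edge {k : ℕ} {i r : ℤ} :
    (sh (k+1) (-k)).symm (edgeOf i r) = edge (i - (2 * k + 1)) r := by
  unfold edgeOf edge sh
  simp only [Equiv.coe_fn_symm_mk]
  split_ifs with h1 h2 h2
  · simp only [Prod.mk.injEq, and_true]; omega
  · omega
  · omega
  · simp only [Prod.mk.injEq, and_true]; omega

/-- probabilities of the edges of the slit strip, coordinates centred at the slit -/
structure EnvC (θ : Edge → unitInterval) (a b : ℕ) (P Q : ℤ → unitInterval) : Prop where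
  past : ∀ c r : ℤ, r < 0 → -(a:ℤ) < c → c ≤ b + 1 →
    (θ (edge c r) : ℝ) = if c % 2 = 0 then (P (r / 2) : ℝ) else 1 - P (r / 2)
  left : ∀ c r : ℤ, 0 ≤ r → -(a:ℤ) < c → c ≤ 0 →
    (θ (edge c r) : ℝ) = if c % 2 = 0 then (P (r / 2) : ℝ) else 1 - P (r / 2)
  right : ∀ c r : ℤ, 0 ≤ r → 1 < c → c ≤ b + 1 →
    (θ (edge c r) : ℝ) = if c % 2 = 0 then (Q (r / 2) : ℝ) else 1 - Q (r / 2)

/-- the centred event in the coordinates of the project, for odd `a` -/
theorem scross_shift (θ : Edge → unitInterval) {a k : ℕ} (hk : a = 2 * k + 1) (b : ℕ) :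
    (indep θ).real (SCross a b) =
      (indep (fun e => θ ((sh (k + 1) (-k)).symm e))).real (H31C.Cross a b) := by
  have hkz : (a:ℤ) = 2 * k + 1 := by exact_mod_cast hk
  rw [← indep_map θ (fun e => θ ((sh (k + 1) (-k)).symm e)) (sh (k + 1) (-k)) (by
    intro i
    simp only [Equiv.symm_apply_apply]) (H31C.Cross a b)]
  congr 1
  have hstep : ∀ (ω : Conf) (x y : ℤ × ℤ), SAdj a b ω x y ↔
      H31C.SlitAdj a (a+b+1) (fun i => ω ((sh (k+1) (-k)).symm i)) (x.1 + (k+1), x.2 + (-k))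
        (y.1 + (k+1), y.2 + (-k)) := by
    intro ω x y
    unfold SAdj H31C.SlitAdj
    rw [openAdj_sh]
    simp only
    push_cast
    constructor
    · rintro ⟨e1, e2, e3, e4, e5, e6⟩
      exact ⟨e1, by omega, by omega, by omega, by omega, by omega⟩
    · rintro ⟨e1, e2, e3, e4, e5, e6⟩
      exact ⟨e1, by omega, by omega, by omega, by omega, by omega⟩
  ext ω
  constructor
  · rintro ⟨x, y, h1, h2, h3, h4⟩
    refine ⟨(x.1 + (k+1), x.2 + (-k)), (y.1 + (k+1), y.2 + (-k)), ?_, ?_, ?_, ?_⟩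
    · show x.1 + (k+1) - (x.2 + (-k)) = (a:ℤ); omega
    · show 1 ≤ x.1 + (k+1) + (x.2 + (-k)); omega
    · show y.1 + (k+1) - (y.2 + (-k)) = ((a+b+1 : ℕ) : ℤ); push_cast; omega
    · exact h4.lift (fun z : ℤ × ℤ => (z.1 + (k+1), z.2 + (-k))) fun p q hpq => (hstep ω p q).mp hpq
  · rintro ⟨x, y, h1, h2, h3, h4⟩
    refine ⟨(x.1 - (k+1), x.2 - (-k)), (y.1 - (k+1), y.2 - (-k)), ?_, ?_, ?_, ?_⟩
    · show x.1 - (k+1) - (x.2 - (-k)) = 0; omega
    · show 0 ≤ x.1 - (k+1) + (x.2 - (-k)); omega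
    · show y.1 - (k+1) - (y.2 - (-k)) = (b:ℤ) + 1; push_cast at h3; omega
    · refine h4.lift (fun z : ℤ × ℤ => (z.1 - (k+1), z.2 - (-k))) fun p q hpq => ?_
      show SAdj a b ω (p.1 - (k+1), p.2 - (-k)) (q.1 - (k+1), q.2 - (-k))
      rw [hstep]
      simpa using hpq

/-- **universality in the centred coordinates, two environments** -/
theorem cen_univ2 {ε : ℝ} (h0 : 0 < ε) (hP : Ell P ε) (hQ : Ell Q ε) (ha : Odd a) (hb : Odd b)
    (hθ : EnvC θ a b P Q) :
    (indep θ).real (SCross a b) = perc.real (SCross a b) := by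
  obtain ⟨k, hk⟩ := ha
  have hkz : (a:ℤ) = 2 * k + 1 := by exact_mod_cast hk
  have ha : Odd a := ⟨k, hk⟩
  rw [scross_shift θ hk, cross_eq31, slit_univ2 h0 hP hQ ha hb ?_, ← cross_eq31, scross_eq ha]
  constructor
  · intro i r hr h1 h2
    rw [sh_edge, hθ.past _ _ hr (by omega) (by omega)]
    have e : ((i - (2 * (k:ℤ) + 1)) % 2 = 0) ↔ i % 2 = 1 := by omega
    simp only [e]
  · intro i r hr h1 h2
    rw [sh_edge, hθ.left _ _ hr (by omega) (by omega)]
    have e : ((i - (2 * (k:ℤ) + 1)) % 2 = 0) ↔ i % 2 = 1 := by omega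
    simp only [e]
  · intro i r hr h1 h2
    rw [sh_edge, hθ.right _ _ hr (by omega) (by omega)]
    have e : ((i - (2 * (k:ℤ) + 1)) % 2 = 0) ↔ i % 2 = 1 := by omega
    simp only [e]

end Pool.Agent.Run7.h729.Ind
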